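import Pool.Agent.W5h33.DF.Field

/-!
# Everywhere unramified cocycles in the cyclotomic tower

`Qb` is the field of algebraic numbers, `K` a number field, `W` a finite `𝔽_p`-vector space with a continuous
action `ρ` of `Gal(Qb/K)`.
-/

set_option autoImplicit false

namespace Pool.Agent.W2helper81.IW

open IntermediateField Module Pool.Agent.Q60.MU Pool.Agent.W5h77.MB
open scoped Pointwise

variable {p : ℕ} {K : IntermediateField ℚ Qb} {W : Type} [AddCommGroup W] [Module (ZMod p) W]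

/-- `Gal(Qb/E)` as a subgroup of `Gal(Qb/K)`. -/
noncomputable abbrev GalOf (K E : IntermediateField ℚ Qb) : Subgroup K.fixingSubgroup :=
  E.fixingSubgroup.subgroupOf K.fixingSubgroup

/-- The action `ρ` is trivial on `Gal(Qb/N)`. -/
def TrivialOver (ρ : Representation (ZMod p) K.fixingSubgroup W) (N : IntermediateField ℚ Qb) : Prop :=
  ∀ g : K.fixingSubgroup, (g : Gal(Qb/ℚ)) ∈ N.fixingSubgroup → ∀ x, ρ g x = x

/-- The action `ρ` is continuous: it is trivial on `Gal(Qb/N)` for some number field `N`. -/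
def IsCont (ρ : Representation (ZMod p) K.fixingSubgroup W) : Prop :=
  ∃ N : IntermediateField ℚ Qb, FiniteDimensional ℚ N ∧ TrivialOver ρ N

/-- `U` is stable under the action `ρ`. -/
def IsSub (ρ : Representation (ZMod p) K.fixingSubgroup W) (U : Submodule (ZMod p) W) : Prop :=
  ∀ g, ∀ x ∈ U, ρ g x ∈ U

/-- `U < U'` are stable and `U' / U` is simple. -/
def IsStep (ρ : Representation (ZMod p) K.fixingSubgroup W) (U U' : Submodule (ZMod p) W) : Prop :=
  IsSub ρ U ∧ IsSub ρ U' ∧ U < U' ∧ ∀ V, IsSub ρ V → U ≤ V → V ≤ U' → V = U ∨ V = U'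

/-- The continuous 1-cocycles `c` of `Gal(Qb/E)` with values in `U`, whose restriction to every inertia group
is a coboundary `g ↦ g w - w` with `w ∈ U`. -/
def CocOn (ρ : Representation (ZMod p) K.fixingSubgroup W) (U : Submodule (ZMod p) W)
    (E : IntermediateField ℚ Qb) : Set (GalOf K E → W) :=
  {c | (∀ g, c g ∈ U) ∧ (∀ g h, c (g * h) = c g + ρ g (c h)) ∧
    (∃ V : Subgroup Gal(Qb/ℚ), IsOpen (V : Set Gal(Qb/ℚ)) ∧
      ∀ g : GalOf K E, ((g : K.fixingSubgroup) : Gal(Qb/ℚ)) ∈ V → c g = 0) ∧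
    ∀ A : ValuationSubring Qb, ∃ w ∈ U,
      ∀ g : GalOf K E, ((g : K.fixingSubgroup) : Gal(Qb/ℚ)) ∈ inertia A → c g = ρ g w - w}

/-- The everywhere unramified continuous 1-cocycles of `Gal(Qb/E)` with values in `W`. -/
def Coc (ρ : Representation (ZMod p) K.fixingSubgroup W) (E : IntermediateField ℚ Qb) :
    Set (GalOf K E → W) :=
  {c | (∀ g h, c (g * h) = c g + ρ g (c h)) ∧
    (∃ V : Subgroup Gal(Qb/ℚ), IsOpen (V : Set Gal(Qb/ℚ)) ∧
      ∀ g : GalOf K E, ((g : K.fixingSubgroup) : Gal(Qb/ℚ)) ∈ V → c g = 0) ∧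
    ∀ A : ValuationSubring Qb, ∃ w : W,
      ∀ g : GalOf K E, ((g : K.fixingSubgroup) : Gal(Qb/ℚ)) ∈ inertia A → c g = ρ g w - w}

/-- The set has at most `C` elements. -/
def AtMost {X : Type} (S : Set X) (C : ℕ) : Prop := S.Finite ∧ S.ncard ≤ C

/-- The number of everywhere unramified cocycles is bounded in the cyclotomic `ℤ_p`-extension of `K`. -/
def QOne (ρ : Representation (ZMod p) K.fixingSubgroup W) : Prop :=
  ∃ C : ℕ, ∀ (m : ℕ) (R : IntermediateField ℚ Qb), IsLayer p m R → AtMost (Coc ρ (K ⊔ R)) C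

/-- The everywhere unramified continuous homomorphisms `Gal(Qb/E) → 𝔽_p`. -/
def Hom (p : ℕ) (E : IntermediateField ℚ Qb) : Set (E.fixingSubgroup → ZMod p) :=
  {χ | (∀ g h, χ (g * h) = χ g + χ h) ∧
    (∃ V : Subgroup Gal(Qb/ℚ), IsOpen (V : Set Gal(Qb/ℚ)) ∧
      ∀ g : E.fixingSubgroup, (g : Gal(Qb/ℚ)) ∈ V → χ g = 0) ∧
    ∀ A : ValuationSubring Qb, ∀ g : E.fixingSubgroup, (g : Gal(Qb/ℚ)) ∈ inertia A → χ g = 0}

/-- The field `K(f)` of the restriction of the linear form `f` to the stable subspace `U`: the fixed field of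
`{g ∈ Gal(Qb/K) | f (g x) = f x for all x ∈ U}`. -/
noncomputable def formField (ρ : Representation (ZMod p) K.fixingSubgroup W) (U : Submodule (ZMod p) W)
    (f : W →ₗ[ZMod p] ZMod p) : IntermediateField ℚ Qb :=
  fixedField (Subgroup.closure
    {g : Gal(Qb/ℚ) | ∃ h : g ∈ K.fixingSubgroup, ∀ x ∈ U, f (ρ ⟨g, h⟩ x) = f x})

/-- The permutation representation of `Gal(Qb/K)` on the `𝔽_p`-valued functions on
`Gal(Qb/K) / Gal(Qb/E)`. -/
noncomputable def perm (p : ℕ) (K E : IntermediateField ℚ Qb) :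
    Representation (ZMod p) K.fixingSubgroup (K.fixingSubgroup ⧸ GalOf K E → ZMod p) where
  toFun g := LinearMap.funLeft (ZMod p) (ZMod p) fun x : K.fixingSubgroup ⧸ GalOf K E => g⁻¹ • x
  map_one' := by
    ext φ x
    simp [LinearMap.funLeft]
  map_mul' g h := by
    ext φ x
    simp [LinearMap.funLeft, mul_smul]

/-! ## The pieces -/

/-- HOM: class groups and homomorphisms. -/
def P_HOM : Prop :=
  ∀ (p : ℕ), p.Prime → ∀ (E : IntermediateField ℚ Qb), FiniteDimensional ℚ E → ∀ C : ℕ,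
    (DegLe p E C ↔ AtMost (Hom p E) C)

/-- FD: every prime number has a bounded number of primes above it in the layers. -/
def P_FD : Prop :=
  ∀ (p : ℕ), p.Prime → p ≠ 2 → ∀ ℓ : ℕ, ℓ.Prime → ∃ t : ℕ, ∀ (m : ℕ) (R : IntermediateField ℚ Qb),
    IsLayer p m R → ∃ T : Finset (ValuationSubring Qb), T.card ≤ t ∧
      ∀ A : ValuationSubring Qb, (ℓ : Qb) ∈ A.nonunits → ∃ B ∈ T, ∃ σ ∈ R.fixingSubgroup, A = σ • B

/-- `T` meets all the classes of primes of `K R` which ramify in `N R K`. -/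
def RamSet (K N R : IntermediateField ℚ Qb) (T : Finset (ValuationSubring Qb)) : Prop :=
  ∀ A : ValuationSubring Qb, inertia A ⊓ K.fixingSubgroup ⊓ R.fixingSubgroup ≤ N.fixingSubgroup ∨
    ∃ B ∈ T, ∃ σ ∈ K.fixingSubgroup ⊓ R.fixingSubgroup, A = σ • B

/-- RAM: bounded number of ramified primes. -/
def P_RAM : Prop :=
  P_FD → ∀ (p : ℕ), p.Prime → p ≠ 2 → ∀ (K N : IntermediateField ℚ Qb), FiniteDimensional ℚ K →
    FiniteDimensional ℚ N → ∃ t : ℕ, ∀ (m : ℕ) (R : IntermediateField ℚ Qb), IsLayer p m R →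
      ∃ T : Finset (ValuationSubring Qb), T.card ≤ t ∧ RamSet K N R T

/-- STEP. -/
def P_STEP : Prop :=
  ∀ (p : ℕ), p.Prime → ∀ (K N R : IntermediateField ℚ Qb), FiniteDimensional ℚ K →
    FiniteDimensional ℚ N → FiniteDimensional ℚ R → K ≤ N → IsGalois ℚ N → IsGalois ℚ R →
    ∀ (W : Type) [AddCommGroup W] [Module (ZMod p) W] [Finite W]
      (ρ : Representation (ZMod p) K.fixingSubgroup W), TrivialOver ρ N →
    ∀ (U U' : Submodule (ZMod p) W) (f : W →ₗ[ZMod p] ZMod p), IsStep ρ U U' → (∀ x ∈ U, f x = 0) →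
    (∃ x ∈ U', f x ≠ 0) → ∀ T : Finset (ValuationSubring Qb), RamSet K N R T →
    ∀ C₀ C₁ : ℕ, AtMost (Hom p (formField ρ U' f ⊔ R)) C₀ → AtMost (CocOn ρ U (K ⊔ R)) C₁ →
      AtMost (CocOn ρ U' (K ⊔ R))
        ((C₀ * Nat.card W) ^ finrank ℚ N * Nat.card W ^ T.card * C₁)

/-- FORM: every simple subquotient has a nonzero linear form which is fixed by a subgroup of small index
prime to `p`. -/
def P_FORM : Prop :=
  ∀ (p : ℕ), p.Prime → ∀ (K : IntermediateField ℚ Qb), FiniteDimensional ℚ K →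
    ∀ (W : Type) [AddCommGroup W] [Module (ZMod p) W] [Finite W]
      (ρ : Representation (ZMod p) K.fixingSubgroup W), IsCont ρ →
    ∀ U U' : Submodule (ZMod p) W, IsStep ρ U U' →
      ∃ f : W →ₗ[ZMod p] ZMod p, (∀ x ∈ U, f x = 0) ∧ (∃ x ∈ U', f x ≠ 0) ∧
        FiniteDimensional ℚ (formField ρ U' f) ∧ K ≤ formField ρ U' f ∧
        ∃ e : ℕ, finrank ℚ (formField ρ U' f) = e * finrank ℚ K ∧ ¬ p ∣ e ∧ e < Nat.card W

/-- SHA: Shapiro. -/
def P_SHA : Prop :=
  ∀ (p : ℕ), p.Prime → ∀ (K E : IntermediateField ℚ Qb), FiniteDimensional ℚ K →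
    FiniteDimensional ℚ E → K ≤ E →
    IsCont (perm p K E) ∧ finrank ℚ K * finrank (ZMod p) (K.fixingSubgroup ⧸ GalOf K E → ZMod p) = finrank ℚ E ∧
    Finite (K.fixingSubgroup ⧸ GalOf K E) ∧
    ∀ R : IntermediateField ℚ Qb, FiniteDimensional ℚ R → IsGalois ℚ R → ∀ C : ℕ,
      AtMost (Coc (perm p K E) (K ⊔ R)) C → AtMost (Hom p (E ⊔ R)) C

/-- MAIN: the criterion. -/
def P_MAIN : Prop :=
  ∀ (p : ℕ), p.Prime → p ≠ 2 → ∀ (K : IntermediateField ℚ Qb), FiniteDimensional ℚ K →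
    ∀ (W : Type) [AddCommGroup W] [Module (ZMod p) W] [Finite W]
      (ρ : Representation (ZMod p) K.fixingSubgroup W), IsCont ρ →
    (∀ U U' : Submodule (ZMod p) W, IsStep ρ U U' → ∃ f : W →ₗ[ZMod p] ZMod p,
      (∀ x ∈ U, f x = 0) ∧ (∃ x ∈ U', f x ≠ 0) ∧ MuZero p (formField ρ U' f)) → QOne ρ

end Pool.Agent.W2helper81.IW
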