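import Pool.Agent.W2helper81.IW.Main

set_option autoImplicit false

namespace Pool.Agent.W2helper81.IW

open IntermediateField Module Pool.Agent.Q60.MU Pool.Agent.W5h77.MB
open scoped Pointwise

/-- The final statement. -/
def Final : Prop :=
  ∀ (p : ℕ), p.Prime → p ≠ 2 → ∀ (K : IntermediateField ℚ Qb), FiniteDimensional ℚ K →
    (∀ (W : Type) [AddCommGroup W] [Module (ZMod p) W] [Finite W]
      (ρ : Representation (ZMod p) K.fixingSubgroup W), IsCont ρ →
      (∀ U U' : Submodule (ZMod p) W, IsStep ρ U U' → ∃ f : W →ₗ[ZMod p] ZMod p,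
        (∀ x ∈ U, f x = 0) ∧ (∃ x ∈ U', f x ≠ 0) ∧ (MuZero p (formField ρ U' f) ∨
          (OnePrime p (formField ρ U' f) ∧ DegLe p (formField ρ U' f) 1))) → QOne ρ) ∧
    (∀ q : ℕ, (∀ E : IntermediateField ℚ Qb, FiniteDimensional ℚ E → K ≤ E →
        ∀ e : ℕ, finrank ℚ E = e * finrank ℚ K → ¬ p ∣ e → e < q → MuZero p E) →
      ∀ (W : Type) [AddCommGroup W] [Module (ZMod p) W] [Finite W]
        (ρ : Representation (ZMod p) K.fixingSubgroup W), IsCont ρ → Nat.card W ≤ q → QOne ρ) ∧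
    (∀ d : ℕ, (∀ (W : Type) [AddCommGroup W] [Module (ZMod p) W] [Finite W]
        (ρ : Representation (ZMod p) K.fixingSubgroup W), IsCont ρ → finrank (ZMod p) W ≤ d → QOne ρ) →
      ∀ E : IntermediateField ℚ Qb, FiniteDimensional ℚ E → K ≤ E →
        finrank ℚ E ≤ d * finrank ℚ K → MuZero p E)

theorem final (hH : P_HOM) (hF : P_FD) (hR : P_RAM) (hS : P_STEP) (hFo : P_FORM) (hSh : P_SHA) :
    Final := by
  intro p hp hp2 K hK
  have hpf : Fact p.Prime := ⟨hp⟩
  have hmain := main_ok hH hF hR hS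
  refine ⟨fun W _ _ _ ρ hρ hform => ?_, fun q hq W _ _ _ ρ hρ hW => ?_, fun d hd E hE hKE hEd => ?_⟩
  · refine hmain p hp hp2 K hK W ρ hρ fun U U' hst => ?_
    obtain ⟨f, h1, h2, h3⟩ := hform U U' hst
    refine ⟨f, h1, h2, ?_⟩
    rcases h3 with h3 | ⟨h3, h4⟩
    · exact h3
    · obtain ⟨N₀, hN₀, hN₀t⟩ := hρ
      obtain ⟨N, hN, hNG, hKN, hNN⟩ := exists_galois K N₀ hK hN₀
      have hMf : FiniteDimensional ℚ (formField ρ U' f) :=
        fd_of_le' hN (formField_le hKN (trivialOver_mono hNN hN₀t) U' f)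
      refine ⟨1, fun m R hL => ?_⟩
      have hRf : FiniteDimensional ℚ R := layer_fd hp hL
      have hRG : IsGalois ℚ R := layer_galois hp hL
      exact one_prime _ h3 h4 hL
  · refine hmain p hp hp2 K hK W ρ hρ fun U U' hst => ?_
    obtain ⟨f, h1, h2, h3, h4, e, he, hpe, hlt⟩ := hFo p hp K hK W ρ hρ U U' hst
    exact ⟨f, h1, h2, hq _ h3 h4 e he hpe (hlt.trans_le hW)⟩
  · obtain ⟨h1, h2, h3, h4⟩ := hSh p hp K E hK hE hKE
    have hfin : Finite (K.fixingSubgroup ⧸ GalOf K E) := h3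
    have hfin2 : Finite (K.fixingSubgroup ⧸ GalOf K E → ZMod p) := inferInstance
    have hpos : 0 < finrank ℚ K := finrank_pos
    have hd' : finrank (ZMod p) (K.fixingSubgroup ⧸ GalOf K E → ZMod p) ≤ d := by
      rw [← h2, mul_comm] at hEd
      exact Nat.le_of_mul_le_mul_right hEd hpos
    obtain ⟨C, hC⟩ := hd _ (perm p K E) h1 hd'
    refine ⟨C, fun m R hL => ?_⟩
    have hRf : FiniteDimensional ℚ R := layer_fd hp hL
    have hRG : IsGalois ℚ R := layer_galois hp hL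
    have hER : FiniteDimensional ℚ ↥(E ⊔ R) := inferInstance
    exact (hH p hp _ hER C).2 (h4 R hRf hRG C (hC m R hL))

end Pool.Agent.W2helper81.IW
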