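import Pool.Agent.W2helper81.IW.Defs

set_option autoImplicit false

namespace Pool.Agent.W2helper81.IW

open IntermediateField Module Pool.Agent.Q60.MU Pool.Agent.W5h77.MB
open scoped Pointwise

variable {p : ℕ} {K : IntermediateField ℚ Qb} {W : Type} [AddCommGroup W] [Module (ZMod p) W]

theorem exists_galois (K N₀ : IntermediateField ℚ Qb) (hK : FiniteDimensional ℚ K)
    (hN : FiniteDimensional ℚ N₀) :
    ∃ N : IntermediateField ℚ Qb, FiniteDimensional ℚ N ∧ IsGalois ℚ N ∧ K ≤ N ∧ N₀ ≤ N := by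
  have h1 : FiniteDimensional ℚ ↥(K ⊔ N₀) := inferInstance
  let N := normalClosure ℚ ↥(K ⊔ N₀) Qb
  have hN1 : FiniteDimensional ℚ N := normalClosure.is_finiteDimensional ℚ _ _
  have hN2 : Normal ℚ N := normalClosure.normal ℚ _ _
  have hle : K ⊔ N₀ ≤ N := by
    have := (K ⊔ N₀).val.fieldRange_le_normalClosure
    rwa [IntermediateField.fieldRange_val] at this
  exact ⟨N, hN1, ⟨⟩, le_sup_left.trans hle, le_sup_right.trans hle⟩

theorem trivialOver_mono {ρ : Representation (ZMod p) K.fixingSubgroup W} {N₀ N : IntermediateField ℚ Qb}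
    (h : N₀ ≤ N) (ht : TrivialOver ρ N₀) : TrivialOver ρ N :=
  fun g hg => ht g (IntermediateField.fixingSubgroup_le h hg)

theorem formField_le {ρ : Representation (ZMod p) K.fixingSubgroup W} {N : IntermediateField ℚ Qb}
    (hKN : K ≤ N) (ht : TrivialOver ρ N) (U : Submodule (ZMod p) W) (f : W →ₗ[ZMod p] ZMod p) :
    formField ρ U f ≤ N := by
  unfold formField
  conv_rhs => rw [← InfiniteGalois.fixedField_fixingSubgroup N]
  apply fixedField_antitone
  intro g hg
  apply Subgroup.subset_closure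
  refine ⟨IntermediateField.fixingSubgroup_le hKN hg, fun x _ => ?_⟩
  rw [ht ⟨g, _⟩ hg x]

theorem fd_of_le' {M N : IntermediateField ℚ Qb} (hN : FiniteDimensional ℚ N) (h : M ≤ N) :
    FiniteDimensional ℚ M :=
  Submodule.finiteDimensional_of_le (S₁ := Subalgebra.toSubmodule M.toSubalgebra)
    (S₂ := Subalgebra.toSubmodule N.toSubalgebra) h

theorem isSub_bot (ρ : Representation (ZMod p) K.fixingSubgroup W) : IsSub ρ ⊥ := by
  intro g x hx
  rw [Submodule.mem_bot] at hx ⊢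
  rw [hx, map_zero]

theorem isSub_top (ρ : Representation (ZMod p) K.fixingSubgroup W) : IsSub ρ ⊤ := fun _ _ _ => trivial

theorem cocOn_bot (ρ : Representation (ZMod p) K.fixingSubgroup W) (E : IntermediateField ℚ Qb) :
    AtMost (CocOn ρ ⊥ E) 1 := by
  have h : CocOn ρ ⊥ E ⊆ {0} := by
    rintro c ⟨h1, -⟩
    rw [Set.mem_singleton_iff]
    funext g
    exact (Submodule.mem_bot _).1 (h1 g)
  exact ⟨(Set.finite_singleton _).subset h, (Set.ncard_le_ncard h (Set.finite_singleton _)).trans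
    (Set.ncard_singleton _).le⟩

theorem exists_step [Finite W] (ρ : Representation (ZMod p) K.fixingSubgroup W) {U : Submodule (ZMod p) W}
    (hU : IsSub ρ U) (hne : U ≠ ⊥) : ∃ V, IsStep ρ V U := by
  have hfin : {V : Submodule (ZMod p) W | IsSub ρ V ∧ V < U}.Finite := Set.toFinite _
  obtain ⟨V, hV⟩ := hfin.exists_maximal ⟨⊥, isSub_bot ρ, bot_lt_iff_ne_bot.2 hne⟩
  refine ⟨V, hV.1.1, hU, hV.1.2, fun V' h1 h2 h3 => ?_⟩
  rcases eq_or_lt_of_le h3 with h4 | h4
  · exact Or.inr h4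
  · exact Or.inl (le_antisymm (hV.2 ⟨h1, h4⟩ h2) h2)

theorem atMost_congr {X : Type} {S T : Set X} (h : S = T) {C : ℕ} (hS : AtMost S C) : AtMost T C := h ▸ hS

theorem cocOn_top (ρ : Representation (ZMod p) K.fixingSubgroup W) (E : IntermediateField ℚ Qb) :
    CocOn ρ ⊤ E = Coc ρ E := by
  ext c
  simp only [CocOn, Coc, Set.mem_setOf_eq, Submodule.mem_top, true_and, implies_true]

theorem atMost_mono {X : Type} {S : Set X} {C C' : ℕ} (h : C ≤ C') (hS : AtMost S C) : AtMost S C' :=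
  ⟨hS.1, hS.2.trans h⟩

theorem layer_fin {m : ℕ} (hp : p.Prime) {R : IntermediateField ℚ Qb} (hR : IsLayer p m R) :
    FiniteDimensional ℚ R := layer_fd hp hR

theorem main_ok (hH : P_HOM) (hF : P_FD) (hR : P_RAM) (hS : P_STEP) : P_MAIN := by
  intro p hp hp2 K hK W _ _ _ ρ hρ hform
  obtain ⟨N₀, hN₀, hN₀t⟩ := hρ
  obtain ⟨N, hN, hNG, hKN, hNN⟩ := exists_galois K N₀ hK hN₀
  have htriv : TrivialOver ρ N := trivialOver_mono hNN hN₀t
  obtain ⟨t, ht⟩ := hR hF p hp hp2 K N hK hN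
  have hpf : Fact p.Prime := ⟨hp⟩
  have hMF : Module.Finite (ZMod p) W := Module.Finite.of_finite
  have key : ∀ n : ℕ, ∀ U : Submodule (ZMod p) W, IsSub ρ U → finrank (ZMod p) U ≤ n →
      ∃ C, ∀ (m : ℕ) (R : IntermediateField ℚ Qb), IsLayer p m R → AtMost (CocOn ρ U (K ⊔ R)) C := by
    intro n
    induction n with
    | zero =>
      intro U _ hU
      have h0 : U = ⊥ := Submodule.finrank_eq_zero.1 (Nat.le_zero.1 hU)
      subst h0
      exact ⟨1, fun m R _ => cocOn_bot ρ _⟩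
    | succ n ih =>
      intro U hU hn
      by_cases h0 : U = ⊥
      · subst h0
        exact ⟨1, fun m R _ => cocOn_bot ρ _⟩
      obtain ⟨V, hV⟩ := exists_step ρ hU h0
      obtain ⟨C₁, hC₁⟩ := ih V hV.1 (Nat.le_of_lt_succ
        ((Submodule.finrank_lt_finrank_of_lt hV.2.2.1).trans_le hn))
      obtain ⟨f, hf1, hf2, C₀, hC₀⟩ := hform V U hV
      refine ⟨(C₀ * Nat.card W) ^ finrank ℚ N * Nat.card W ^ t * C₁, fun m R hL => ?_⟩
      obtain ⟨T, hTt, hT⟩ := ht m R hL
      have hRf : FiniteDimensional ℚ R := layer_fd hp hL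
      have hRG : IsGalois ℚ R := layer_galois hp hL
      have hMf : FiniteDimensional ℚ (formField ρ U f) := fd_of_le' hN (formField_le hKN htriv U f)
      have hMR : FiniteDimensional ℚ ↥(formField ρ U f ⊔ R) := inferInstance
      have h1 := (hH p hp _ hMR C₀).1 (hC₀ m R hL)
      have h2 := hS p hp K N R hK hN hRf hKN hNG hRG W ρ htriv V U f hV hf1 hf2 T hT C₀ C₁ h1
        (hC₁ m R hL)
      refine atMost_mono ?_ h2
      have hW : 0 < Nat.card W := Nat.card_pos
      exact Nat.mul_le_mul_right _ (Nat.mul_le_mul_left _ (Nat.pow_le_pow_right hW hTt))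
  obtain ⟨C, hC⟩ := key _ ⊤ (isSub_top ρ) le_rfl
  exact ⟨C, fun m R hL => atMost_congr (cocOn_top ρ _) (hC m R hL)⟩

end Pool.Agent.W2helper81.IW
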